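import Pool.Agent.Helper88.MT.Top

/-!
Compact forms (project CF for MP_b8862a_ag): definitions. `L` is a semisimple complex Lie algebra with a Cartan
subalgebra `H`, `V` is an irreducible faithful `L`-module, `b` a base of the root system.
-/

open Module LieModule LieAlgebra LieAlgebra.IsKilling

namespace CF

open MTP MTP.MF

variable {V : Type*} [AddCommGroup V] [Module ℂ V] [FiniteDimensional ℂ V]
  {L : Type*} [LieRing L] [LieAlgebra ℂ L] [FiniteDimensional ℂ L] [IsKilling ℂ L]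
  {H : LieSubalgebra ℂ L} [H.IsCartanSubalgebra] [LieRingModule L V] [LieModule ℂ L V]

/-- Generators: a triple for every simple root. -/
structure Gen (b : (rootSystem H).Base) (es fs : H.root → L) : Prop where
  tr : ∀ i ∈ b.support, IsSl2Triple ((coroot i.1 : H) : L) (es i) (fs i)
  me : ∀ i ∈ b.support, es i ∈ rootSpace H i.1
  mf : ∀ i ∈ b.support, fs i ∈ rootSpace H (-i.1)

/-- A nondegenerate Hermitian form (linear in the first argument) for which `es i` and `fs i` are adjoint. -/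
structure HF (b : (rootSystem H).Base) (es fs : H.root → L) (S : V →ₗ[ℂ] V →ₗ⋆[ℂ] ℂ) : Prop where
  herm : ∀ u v, S v u = starRingEnd ℂ (S u v)
  ef : ∀ i ∈ b.support, ∀ u v, S ⁅es i, u⁆ v = S u ⁅fs i, v⁆
  nd : ∀ u, (∀ v, S u v = 0) → u = 0

/-- The adjoint for a Hermitian form `S`, as a map of `L`. -/
structure TH (b : (rootSystem H).Base) (es fs : H.root → L) (S : V →ₗ[ℂ] V →ₗ⋆[ℂ] ℂ) (θ : L → L) : Prop where
  add : ∀ x y, θ (x + y) = θ x + θ y
  smul : ∀ (c : ℂ) x, θ (c • x) = starRingEnd ℂ c • θ x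
  lie : ∀ x y, θ ⁅x, y⁆ = ⁅θ y, θ x⁆
  inv : ∀ x, θ (θ x) = x
  adj : ∀ (x : L) (u v : V), S ⁅x, u⁆ v = S u ⁅θ x, v⁆
  e : ∀ i ∈ b.support, θ (es i) = fs i
  f : ∀ i ∈ b.support, θ (fs i) = es i
  root : ∀ (α : H.root), ∀ x ∈ rootSpace H α.1, θ x ∈ rootSpace H (-α.1)

end CF
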