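import Pool.Agent.Helper2.CF.Wsp
import Pool.Agent.Helper56.CF.Gen
import Pool.Agent.Helper88.MT.Extremal

/-!
Project CF (MP_b8862a_ag), block CF-6: the Hermitian form is positive definite.
-/

open Module LieModule LieAlgebra LieAlgebra.IsKilling

namespace CF

open MTP MTP.MF

variable {V : Type*} [AddCommGroup V] [Module ℂ V] [FiniteDimensional ℂ V]
  {L : Type*} [LieRing L] [LieAlgebra ℂ L] [FiniteDimensional ℂ L] [IsKilling ℂ L]
  {H : LieSubalgebra ℂ L} [H.IsCartanSubalgebra] [LieRingModule L V] [LieModule ℂ L V]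
  {b : (rootSystem H).Base} {es fs : H.root → L} {S : V →ₗ[ℂ] V →ₗ⋆[ℂ] ℂ} {θ : L → L}

section

variable {I : Type*} [Fintype I] (B : WB (V := V) H I)

/-- The coordinates of a weight vector. -/
private lemma coordw2 {k : I} {v : V} (hv : v ∈ wsp B k) {i : I} (hi : B.v.repr v i ≠ 0) : B.w i = B.w k := by
  ext h
  exact B.coord (hv h) hi

private lemma neg_stable2 (hirr : ∀ W : Submodule ℂ V, (∀ x : L, ∀ u ∈ W, ⁅x, u⁆ ∈ W) → W = ⊥ ∨ W = ⊤)
    (b : (rootSystem H).Base) {c : I → ℤ} (hc : ∀ i, B.w i (rho2 b) = (c i : ℂ)) {k : I} {v : V}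
    (hv : v ∈ wsp B k) (hv0 : v ≠ 0) (hkill : ∀ α : H.root, b.IsPos α → ∀ x ∈ rootSpace H α.1, ⁅x, v⁆ = 0) :
    ∀ i, c i ≤ c k := by
  classical
  let Neg : L → Prop := fun x => ∃ α : H.root, ¬ b.IsPos α ∧ x ∈ rootSpace H α.1
  let M : Submodule ℂ V := sInf {U | v ∈ U ∧ ∀ x, Neg x → ∀ u ∈ U, ⁅x, u⁆ ∈ U}
  have hM1 : v ∈ M := by
    rw [Submodule.mem_sInf]
    rintro U ⟨hU, _⟩
    exact hU
  have hM2 : ∀ x, Neg x → ∀ u ∈ M, ⁅x, u⁆ ∈ M := by
    intro x hx u hu
    rw [Submodule.mem_sInf] at *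
    intro U hU
    exact hU.2 x hx u (hu U hU)
  have hMle : ∀ U : Submodule ℂ V, v ∈ U → (∀ x, Neg x → ∀ u ∈ U, ⁅x, u⁆ ∈ U) → M ≤ U :=
    fun U h1 h2 => sInf_le ⟨h1, h2⟩
  -- `M` is stable
  have hM3 : ∀ x : L, ∀ u ∈ M, ⁅x, u⁆ ∈ M := by
    let U : Submodule ℂ V :=
      { carrier := {u | u ∈ M ∧ ∀ x : L, ⁅x, u⁆ ∈ M}
        add_mem' := by
          rintro a a' ⟨h1, h2⟩ ⟨h3, h4⟩
          exact ⟨M.add_mem h1 h3, fun x => by rw [lie_add]; exact M.add_mem (h2 x) (h4 x)⟩
        zero_mem' := ⟨M.zero_mem, fun x => by rw [lie_zero]; exact M.zero_mem⟩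
        smul_mem' := by
          rintro k a ⟨h1, h2⟩
          exact ⟨M.smul_mem _ h1, fun x => by rw [lie_smul]; exact M.smul_mem _ (h2 x)⟩ }
    have hU : M ≤ U := by
      apply hMle
      · refine ⟨hM1, fun x => ?_⟩
        let X : Submodule ℂ L :=
          { carrier := {x | ⁅x, v⁆ ∈ M}
            add_mem' := by
              intro a b ha hb
              simp only [Set.mem_ofPred_eq, add_lie] at *
              exact add_mem ha hb
            zero_mem' := by simp
            smul_mem' := by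
              intro c a ha
              simp only [Set.mem_ofPred_eq, smul_lie] at *
              exact Submodule.smul_mem _ _ ha }
        refine root_induction (U := X) (H := H) ?_ x
        intro α z hz
        change ⁅z, v⁆ ∈ M
        by_cases hα : α.IsZero
        · have hzH : z ∈ H := by
            rw [hα.eq] at hz
            rwa [rootSpace_zero_eq, LieSubalgebra.mem_toLieSubmodule] at hz
          have h1 : ⁅z, v⁆ = B.w k ⟨z, hzH⟩ • v := hv ⟨z, hzH⟩
          rw [h1]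
          exact Submodule.smul_mem _ _ hM1
        · have hα' : α ∈ H.root := by simpa [LieSubalgebra.root] using hα
          by_cases hpos : b.IsPos ⟨α, hα'⟩
          · rw [hkill ⟨α, hα'⟩ hpos z hz]
            exact M.zero_mem
          · exact hM2 z ⟨⟨α, hα'⟩, hpos, hz⟩ _ hM1
      · rintro x hx u ⟨hu1, hu2⟩
        refine ⟨hM2 x hx u hu1, fun z => ?_⟩
        rw [leibniz_lie]
        exact M.add_mem (hu2 _) (hM2 x hx _ (hu2 z))
    intro x u hu
    exact (hU hu).2 x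
  have hM4 : M = ⊤ := by
    rcases hirr M hM3 with h | h
    · exfalso
      rw [h, Submodule.mem_bot] at hM1
      exact hv0 hM1
    · exact h
  -- comparison
  let N : Submodule ℂ V :=
    { carrier := {u | ∀ i, c k < c i → B.v.repr u i = 0}
      add_mem' := by
        intro a a' ha hb j hj
        rw [map_add, Finsupp.add_apply, ha j hj, hb j hj, add_zero]
      zero_mem' := by intro j _; simp
      smul_mem' := by
        intro c a ha j hj
        rw [map_smul, Finsupp.smul_apply, ha j hj, smul_zero] }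
  have hN : M ≤ N := by
    apply hMle
    · intro i hi
      by_contra h0
      have h1 := hc i
      rw [coordw2 B hv h0, hc] at h1
      have h2 : c k = c i := Int.cast_injective h1
      omega
    · rintro x ⟨α, hα, hx⟩ u hu i hi
      have e : u = ∑ j, B.v.repr u j • B.v j := (B.v.sum_repr _).symm
      rw [e, lie_sum, map_sum, Finsupp.finsetSum_apply]
      refine Finset.sum_eq_zero fun j _ => ?_
      rw [lie_smul, map_smul, Finsupp.smul_apply, smul_eq_mul]
      by_cases hj : B.v.repr ⁅x, B.v j⁆ i = 0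
      · rw [hj, mul_zero]
      · have h1 := B.coord_root hx hj (rho2 b)
        rw [hc, hc, root_rho] at h1
        have h2 : c i = 2 * b.height α + c j := by
          have : ((c i : ℤ) : ℂ) = ((2 * b.height α + c j : ℤ) : ℂ) := by
            rw [h1]; push_cast; ring
          exact Int.cast_injective this
        have h4 : ¬ 0 < b.height α := hα
        have h5 := b.height_ne_zero α
        rw [hu j (by omega), zero_mul]
  intro i
  by_contra hit
  have h1 : B.v i ∈ N := hN (by rw [hM4]; trivial)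
  have h2 := h1 i (by omega)
  rw [B.v.repr_self, Finsupp.single_eq_same] at h2
  exact one_ne_zero h2

private lemma map_sum2 {J : Type*} (s : Finset J) (f : J → V) (v : V) : S (∑ i ∈ s, f i) v = ∑ i ∈ s, S (f i) v := by
  rw [map_sum, LinearMap.sum_apply]

omit [Fintype I] in
/-- Weight vectors of different weights are orthogonal. -/
private lemma hort2 (hint : ∀ i (α : H.root), ∃ a : ℤ, B.w i (coroot α.1) = (a : ℂ))
    (G : Gen b es fs) (T : TH b es fs S θ) {k l : I} {u v : V} (hu : u ∈ wsp B k) (hv : v ∈ wsp B l)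
    (h : S u v ≠ 0) : B.w k = B.w l := by
  have hco : ∀ α ∈ b.support, ∀ u v : V,
      S ⁅((coroot α.1 : H) : L), u⁆ v = S u ⁅((coroot α.1 : H) : L), v⁆ := by
    intro α hα u v
    have h2 : θ ((coroot α.1 : H) : L) = ((coroot α.1 : H) : L) := by
      rw [← (G.tr α hα).lie_e_f, T.lie, T.e α hα, T.f α hα]
    rw [T.adj, h2]
  have h3 : ∀ α ∈ b.support, B.w k (coroot α.1) = B.w l (coroot α.1) := by
    intro α hα
    obtain ⟨a, ha⟩ := hint l α
    have h4 := hco α hα u v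
    rw [hu (coroot α.1), hv (coroot α.1), ha, LinearMap.map_smul₂, LinearMap.map_smulₛₗ, smul_eq_mul,
      smul_eq_mul, map_intCast] at h4
    rw [ha]
    exact mul_right_cancel₀ h h4
  ext x
  have h5 : x ∈ Submodule.span ℂ ((rootSystem H).coroot '' b.support) := by
    rw [b.span_coroot_support, RootPairing.corootSpan,
      RootPairing.IsRootSystem.span_coroot_eq_top]
    trivial
  induction h5 using Submodule.span_induction with
  | mem u hu =>
    obtain ⟨α, hα, rfl⟩ := hu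
    exact h3 α hα
  | zero => rw [map_zero, map_zero]
  | add u v _ _ hu hv => rw [map_add, map_add, hu, hv]
  | smul r u _ hu => rw [map_smul, map_smul, hu]

private lemma memneg2 {α : H.root} {x : L} (hx : x ∈ rootSpace H (-α.1)) {y : L} (hy : y ∈ rootSpace H (-α.1))
    (hx0 : x ≠ 0) : ∃ c : ℂ, y = c • x := by
  have hne : (-α.1 : Weight ℂ H L).IsNonZero := Weight.IsNonZero.neg (H.isNonZero_coe_root α)
  have h6 : finrank ℂ (rootSpace H (-α.1 : Weight ℂ H L)) = 1 := finrank_rootSpace_eq_one _ hne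
  have e : ((-α.1 : Weight ℂ H L) : H → ℂ) = -(α.1 : H → ℂ) := Weight.coe_neg
  rw [e] at h6
  have h7 : finrank ℂ (rootSpace H (-α.1)).toSubmodule = 1 := h6
  obtain ⟨c, hc⟩ := exists_smul_eq_of_finrank_eq_one h7 (x := (⟨x, hx⟩ : (rootSpace H (-α.1)).toSubmodule))
    (fun h => hx0 (congrArg Subtype.val h)) ⟨y, hy⟩
  exact ⟨c, (congrArg Subtype.val hc).symm⟩

/-- The form is positive on weight vectors. -/
private lemma wsp_pos2 [DecidablePred b.IsPos]
    (hirr : ∀ W : Submodule ℂ V, (∀ x : L, ∀ u ∈ W, ⁅x, u⁆ ∈ W) → W = ⊥ ∨ W = ⊤)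
    (G : Gen b es fs) (T : TH b es fs S θ)
    {c : I → ℤ} (hc : ∀ i, B.w i (rho2 b) = (c i : ℂ)) {t : I} (ht : ∀ i, c i ≤ c t) (h1 : S (B.v t) (B.v t) = 1)
    (hn : ∀ {α : H.root}, b.IsPos α → ∀ {x : L}, x ∈ rootSpace H α.1 → x ≠ 0 →
      ∃ r : ℝ, 0 < r ∧ traceForm ℂ L V x (θ x) = (r : ℂ))
    (ea fa : H.root → L) (htr : ∀ α : H.root, IsSl2Triple ((coroot α.1 : H) : L) (ea α) (fa α))
    (he : ∀ α, ea α ∈ rootSpace H α.1) (hf : ∀ α, fa α ∈ rootSpace H (-α.1))
    (hcas : ∀ k : I, ∃ r : ℝ, 0 ≤ r ∧ (∀ v ∈ wsp B k,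
        ∑ α with b.IsPos α, (traceForm ℂ L V (ea α) (fa α))⁻¹ • ⁅fa α, ⁅ea α, v⁆⁆ = (r : ℂ) • v) ∧
      (r = 0 → ∀ α, b.IsPos α → ∀ v ∈ wsp B k, ⁅ea α, v⁆ = 0)) (n : ℕ) :
    ∀ k : I, c t - c k = n → ∀ v ∈ wsp B k, ∃ r : ℝ, 0 ≤ r ∧ S v v = (r : ℂ) ∧ (r = 0 → v = 0) := by
  classical
  induction n using Nat.strong_induction_on with
  | _ n ih =>
  intro k hk v hv
  by_cases hv0 : v = 0
  · refine ⟨0, le_rfl, ?_, fun _ => hv0⟩
    rw [hv0, map_zero, Complex.ofReal_zero]
  rcases Nat.eq_zero_or_pos n with rfl | hn0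
  · -- the top weight
    have hkt : k = t := top_unique B hirr b hc ht k (by simpa using (sub_eq_zero.mp hk).symm)
    subst hkt
    have hv1 : v = B.v.repr v k • B.v k := by
      conv_lhs => rw [← B.v.sum_repr v]
      refine Finset.sum_eq_single k ?_ (by simp)
      intro i _ hik
      by_contra h0
      have h2 : B.v.repr v i ≠ 0 := fun h => h0 (by rw [h, zero_smul])
      have h3 : c i = c k := by
        have h4 := hc i
        rw [coordw2 B hv h2, hc] at h4
        exact (Int.cast_injective h4).symm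
      exact hik (top_unique B hirr b hc ht i h3)
    set a := B.v.repr v k with ha
    refine ⟨Complex.normSq a, Complex.normSq_nonneg a, ?_, ?_⟩
    · rw [hv1, LinearMap.map_smul₂, LinearMap.map_smulₛₗ, h1, smul_eq_mul, smul_eq_mul, mul_one,
        Complex.normSq_eq_conj_mul_self, mul_comm]
    · intro h
      rw [Complex.normSq_eq_zero] at h
      rw [hv1, h, zero_smul]
  · obtain ⟨r, hr, hr1, hr2⟩ := hcas k
    have hrne : r ≠ 0 := by
      intro h0
      have hle := neg_stable2 B hirr b hc hv hv0 (by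
        intro α hα x hx
        obtain ⟨d, rfl⟩ := mem_line (he α) (htr α).e_ne_zero hx
        rw [smul_lie, hr2 h0 α hα v hv, smul_zero]) t
      omega
    -- the terms
    have hterm : ∀ α : H.root, b.IsPos α → ∃ s : ℝ, 0 ≤ s ∧
        S ((traceForm ℂ L V (ea α) (fa α))⁻¹ • ⁅fa α, ⁅ea α, v⁆⁆) v = (s : ℂ) ∧ (s = 0 → ⁅ea α, v⁆ = 0) := by
      intro α hα
      have hfne : fa α ≠ 0 := (htr α).f_ne_zero
      have hene : ea α ≠ 0 := (htr α).e_ne_zero
      obtain ⟨κ, hκ⟩ := memneg2 (hf α) (T.root α _ (he α)) hfne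
      have hκ0 : κ ≠ 0 := by
        rintro rfl
        rw [zero_smul] at hκ
        have h2 := T.inv (ea α)
        rw [hκ] at h2
        have h3 : θ 0 = 0 := by
          have := T.smul 0 0
          rwa [zero_smul, map_zero, zero_smul] at this
        rw [h3] at h2
        exact hene h2.symm
      obtain ⟨ρ, hρ, hρ2⟩ := hn hα (he α) hene
      rw [hκ, map_smul, smul_eq_mul] at hρ2
      have hτ : (traceForm ℂ L V (ea α) (fa α))⁻¹ = (ρ : ℂ)⁻¹ * κ := by
        have hρ0 : (ρ : ℂ) ≠ 0 := Complex.ofReal_ne_zero.mpr hρ.ne'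
        have hτ0 : traceForm ℂ L V (ea α) (fa α) ≠ 0 := by
          intro h
          rw [h, mul_zero] at hρ2
          exact hρ0 hρ2.symm
        rw [← hρ2]
        field_simp
      have hval : S ((traceForm ℂ L V (ea α) (fa α))⁻¹ • ⁅fa α, ⁅ea α, v⁆⁆) v =
          (ρ : ℂ)⁻¹ * S ⁅ea α, v⁆ ⁅ea α, v⁆ := by
        rw [hτ, mul_smul, ← smul_lie, ← hκ, LinearMap.map_smul₂, smul_eq_mul, T.adj, T.inv]
      by_cases hev : ⁅ea α, v⁆ = 0
      · refine ⟨0, le_rfl, ?_, fun _ => hev⟩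
        rw [hval, hev, map_zero, mul_zero, Complex.ofReal_zero]
      -- `e v` is a weight vector of a higher weight
      have hrep : B.v.repr ⁅ea α, v⁆ ≠ 0 := fun h => hev (B.v.repr.map_eq_zero_iff.mp h)
      obtain ⟨l, hl⟩ := Finsupp.ne_iff.mp hrep
      have hwt : ∀ h : H, ⁅(h : L), ⁅ea α, v⁆⁆ = (α.1 h + B.w k h) • ⁅ea α, v⁆ := by
        intro h
        rw [leibniz_lie, lie_root (he α), hv h, smul_lie, lie_smul, ← add_smul]
      have hwl : ∀ h : H, B.w l h = α.1 h + B.w k h := fun h => B.coord (hwt h) hl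
      have hmem : ⁅ea α, v⁆ ∈ wsp B l := by
        intro h
        rw [hwt, hwl]
      have hcl : c l = 2 * b.height α + c k := by
        have h2 := hwl (rho2 b)
        rw [hc, hc, root_rho] at h2
        have : ((c l : ℤ) : ℂ) = ((2 * b.height α + c k : ℤ) : ℂ) := by
          rw [h2]; push_cast; ring
        exact Int.cast_injective this
      have hpos : 0 < b.height α := hα
      have hlt := ht l
      obtain ⟨s, hs, hs2, hs3⟩ := ih (c t - c l).toNat (by omega) l (by omega) _ hmem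
      refine ⟨ρ⁻¹ * s, by positivity, ?_, ?_⟩
      · rw [hval, hs2]
        push_cast
        rfl
      · intro h
        exact hs3 ((mul_eq_zero.mp h).resolve_left (inv_ne_zero hρ.ne'))
    choose! s hs hs2 hs3 using hterm
    have hsum : (r : ℂ) * S v v = ((∑ α with b.IsPos α, s α : ℝ) : ℂ) := by
      have h2 := congrArg (fun w => S w v) (hr1 v hv)
      change S (∑ α with b.IsPos α, (traceForm ℂ L V (ea α) (fa α))⁻¹ • ⁅fa α, ⁅ea α, v⁆⁆) v =
        S ((r : ℂ) • v) v at h2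
      rw [LinearMap.map_smul₂, smul_eq_mul, map_sum2] at h2
      rw [← h2, Complex.ofReal_sum]
      exact Finset.sum_congr rfl fun α hα => hs2 α (Finset.mem_filter.mp hα).2
    have hr0 : (r : ℂ) ≠ 0 := Complex.ofReal_ne_zero.mpr hrne
    have hnn : 0 ≤ ∑ α with b.IsPos α, s α :=
      Finset.sum_nonneg fun α hα => hs α (Finset.mem_filter.mp hα).2
    refine ⟨r⁻¹ * ∑ α with b.IsPos α, s α, by positivity, ?_, ?_⟩
    · rw [Complex.ofReal_mul, ← hsum, Complex.ofReal_inv]
      field_simp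
    · intro h
      have h3 : ∑ α with b.IsPos α, s α = 0 := (mul_eq_zero.mp h).resolve_left (inv_ne_zero hrne)
      rw [Finset.sum_eq_zero_iff_of_nonneg (fun α hα => hs α (Finset.mem_filter.mp hα).2)] at h3
      have h4 := hr1 v hv
      have h5 : (r : ℂ) • v = 0 := by
        rw [← h4]
        refine Finset.sum_eq_zero fun α hα => ?_
        rw [hs3 α (Finset.mem_filter.mp hα).2 (h3 α hα), lie_zero, smul_zero]
      exact (smul_eq_zero.mp h5).resolve_left hr0

end

open Classical in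
/-- CF-6: the form is positive definite. -/
theorem form_pos [Nontrivial V]
    (hirr : ∀ W : Submodule ℂ V, (∀ x : L, ∀ u ∈ W, ⁅x, u⁆ ∈ W) → W = ⊥ ∨ W = ⊤)
    (_hfaith : ∀ x : L, (∀ u : V, ⁅x, u⁆ = 0) → x = 0)
    {I : Type*} [Fintype I] (B : WB (V := V) H I)
    (hint : ∀ i (α : H.root), ∃ a : ℤ, B.w i (coroot α.1) = (a : ℂ))
    (G : Gen b es fs) (_F : HF b es fs S) (T : TH b es fs S θ)
    {c : I → ℤ} (hc : ∀ i, B.w i (rho2 b) = (c i : ℂ)) {t : I} (ht : ∀ i, c i ≤ c t) (h1 : S (B.v t) (B.v t) = 1)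
    (hn : ∀ {α : H.root}, b.IsPos α → ∀ {x : L}, x ∈ rootSpace H α.1 → x ≠ 0 →
      ∃ r : ℝ, 0 < r ∧ traceForm ℂ L V x (θ x) = (r : ℂ))
    (ea fa : H.root → L) (htr : ∀ α : H.root, IsSl2Triple ((coroot α.1 : H) : L) (ea α) (fa α))
    (he : ∀ α, ea α ∈ rootSpace H α.1) (hf : ∀ α, fa α ∈ rootSpace H (-α.1))
    (hcas : ∀ k : I, ∃ r : ℝ, 0 ≤ r ∧ (∀ v ∈ wsp B k,
        ∑ α with b.IsPos α, (traceForm ℂ L V (ea α) (fa α))⁻¹ • ⁅fa α, ⁅ea α, v⁆⁆ = (r : ℂ) • v) ∧
      (r = 0 → ∀ α, b.IsPos α → ∀ v ∈ wsp B k, ⁅ea α, v⁆ = 0))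
    {u : V} (hu : u ≠ 0) : ∃ r : ℝ, 0 < r ∧ S u u = (r : ℂ) := by
  have hpos : ∀ k : I, ∀ v ∈ wsp B k, ∃ r : ℝ, 0 ≤ r ∧ S v v = (r : ℂ) ∧ (r = 0 → v = 0) := by
    intro k v hv
    have h2 := ht k
    exact wsp_pos2 B hirr G T hc ht h1 hn ea fa htr he hf hcas (c t - c k).toNat k (by omega) v hv
  let X : Finset (Dual ℂ H) := Finset.univ.image B.w
  let U : Dual ℂ H → V := fun χ => ∑ i with B.w i = χ, B.v.repr u i • B.v i
  have hUs : ∑ χ ∈ X, U χ = u := by
    conv_rhs => rw [← B.v.sum_repr u]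
    exact Finset.sum_fiberwise_of_maps_to (fun i _ => Finset.mem_image_of_mem _ (Finset.mem_univ i)) _
  have hUm : ∀ k : I, U (B.w k) ∈ wsp B k := by
    intro k
    refine Submodule.sum_mem _ fun i hi => Submodule.smul_mem _ _ ?_
    intro h
    rw [B.lie_v, (Finset.mem_filter.mp hi).2]
  have hterm : ∀ χ ∈ X, ∃ r : ℝ, 0 ≤ r ∧ S (U χ) u = (r : ℂ) ∧ (r = 0 → U χ = 0) := by
    intro χ hχ
    obtain ⟨k, _, rfl⟩ := Finset.mem_image.mp hχ
    obtain ⟨r, hr, hr1, hr2⟩ := hpos k _ (hUm k)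
    refine ⟨r, hr, ?_, hr2⟩
    rw [← hr1]
    have h3 : S (U (B.w k)) u = ∑ ψ ∈ X, S (U (B.w k)) (U ψ) := by
      rw [← map_sum, hUs]
    rw [h3]
    refine Finset.sum_eq_single (B.w k) ?_ (fun h => absurd hχ h)
    intro ψ hψ hne
    obtain ⟨l, _, rfl⟩ := Finset.mem_image.mp hψ
    by_contra h0
    exact hne (hort2 B hint G T (hUm k) (hUm l) h0).symm
  choose! r hr hr1 hr2 using hterm
  refine ⟨∑ χ ∈ X, r χ, ?_, ?_⟩
  · rcases (Finset.sum_nonneg hr).lt_or_eq with h | h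
    · exact h
    · exfalso
      apply hu
      rw [← hUs]
      refine Finset.sum_eq_zero fun χ hχ => hr2 χ hχ ?_
      exact (Finset.sum_eq_zero_iff_of_nonneg hr).mp h.symm χ hχ
  · rw [Complex.ofReal_sum]
    have h3 : S u u = ∑ χ ∈ X, S (U χ) u := by
      rw [← map_sum2, hUs]
    rw [h3]
    exact Finset.sum_congr rfl hr1

end CF
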