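import Pool.Agent.Helper2.CF.Defs

/-!
Compact forms (project CF for MP_b8862a_ag): the weight spaces.
-/

open Module LieModule LieAlgebra LieAlgebra.IsKilling

namespace CF

open MTP MTP.MF

variable {V : Type*} [AddCommGroup V] [Module ℂ V] [FiniteDimensional ℂ V]
  {L : Type*} [LieRing L] [LieAlgebra ℂ L] [FiniteDimensional ℂ L] [IsKilling ℂ L]
  {H : LieSubalgebra ℂ L} [H.IsCartanSubalgebra] [LieRingModule L V] [LieModule ℂ L V]

/-- the weight space of the weight of the basis vector `k` -/
def wsp {I : Type*} (B : WB (V := V) H I) (k : I) : Submodule ℂ V where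
  carrier := {v | ∀ h : H, ⁅(h : L), v⁆ = B.w k h • v}
  add_mem' := by
    intro x y hx hy h
    rw [lie_add, hx h, hy h, smul_add]
  zero_mem' := by
    intro h
    rw [lie_zero, smul_zero]
  smul_mem' := by
    intro c x hx h
    rw [lie_smul, hx h, smul_comm]

end CF
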